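import Mathlib
import Pool.Agent.W667.DT.Stms

set_option autoImplicit false
set_option maxSynthPendingDepth 3
set_option linter.unusedSectionVars false
set_option linter.unusedVariables false

/-! The three exact sequences. -/

namespace Pool.Agent.W363.DT

open Pool.Agent.Helper832.GD Pool.Agent.Helper832.GD.Bim ContinuousLinearMap Topology Filter
open Pool.Agent.W667.DT

noncomputable section

/-! ### An averaging lemma -/

section Avg

variable {P Q Z : Type} [NormedAddCommGroup P] [NormedSpace ℂ P]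
  [NormedAddCommGroup Q] [NormedSpace ℂ Q] [NormedAddCommGroup Z] [NormedSpace ℂ Z]

lemma norm_tens_le (p : P) (q : Q) : ‖(tens p q : Tens P Q)‖ ≤ ‖p‖ * ‖q‖ := by
  refine ContinuousLinearMap.opNorm_le_bound _ (by positivity) (fun β => ?_)
  have := β.le_opNorm₂ p q
  calc ‖β p q‖ ≤ ‖β‖ * ‖p‖ * ‖q‖ := this
    _ = ‖p‖ * ‖q‖ * ‖β‖ := by ring

lemma avg (β : P →L[ℂ] Q →L[ℂ] Z) {ι : Type} (t : Finset ι) (p : ι → P) (q : ι → Q) (M : ℝ) :
    ∀ (p0 : P) (q0 : Q), (∀ ε : ι → ℂ, (∀ i, ε i = 1 ∨ ε i = -1) →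
      ‖β (p0 + ∑ i ∈ t, ε i • p i) (q0 + ∑ i ∈ t, ε i • q i)‖ ≤ M) →
    ‖β p0 q0 + ∑ i ∈ t, β (p i) (q i)‖ ≤ M := by
  classical
  induction t using Finset.induction_on with
  | empty =>
    intro p0 q0 h
    have := h (fun _ => 1) (fun _ => Or.inl rfl)
    simpa using this
  | insert a t ha ih =>
    intro p0 q0 h
    have key : ∀ δ : ℂ, (δ = 1 ∨ δ = -1) →
        ‖β (p0 + δ • p a) (q0 + δ • q a) + ∑ i ∈ t, β (p i) (q i)‖ ≤ M := by
      intro δ hδ
      apply ih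
      intro ε hε
      have h1 := h (Function.update ε a δ) (fun i => by
        by_cases hi : i = a
        · subst hi
          rw [Function.update_self]
          exact hδ
        · rw [Function.update_of_ne hi]
          exact hε i)
      have e1 : ∀ {R : Type} [AddCommGroup R] [Module ℂ R] (g : ι → R),
          ∑ i ∈ t, (Function.update ε a δ) i • g i = ∑ i ∈ t, ε i • g i := by
        intro R _ _ g
        refine Finset.sum_congr rfl fun i hi => ?_
        rw [Function.update_of_ne (by rintro rfl; exact ha hi)]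
      rw [Finset.sum_insert ha, Finset.sum_insert ha, e1, e1, Function.update_self,
        ← add_assoc, ← add_assoc] at h1
      exact h1
    have h1 := key 1 (Or.inl rfl)
    have h2 := key (-1) (Or.inr rfl)
    rw [Finset.sum_insert ha]
    have e2 : β p0 q0 + (β (p a) (q a) + ∑ i ∈ t, β (p i) (q i)) =
        (1 / 2 : ℂ) • ((β (p0 + (1 : ℂ) • p a) (q0 + (1 : ℂ) • q a) +
          ∑ i ∈ t, β (p i) (q i)) + (β (p0 + (-1 : ℂ) • p a) (q0 + (-1 : ℂ) • q a) +
          ∑ i ∈ t, β (p i) (q i))) := by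
      simp only [map_add, map_neg, add_apply, neg_apply, one_smul, neg_smul]
      module
    rw [e2, norm_smul]
    have h3 := norm_add_le (β (p0 + (1 : ℂ) • p a) (q0 + (1 : ℂ) • q a) +
          ∑ i ∈ t, β (p i) (q i)) (β (p0 + (-1 : ℂ) • p a) (q0 + (-1 : ℂ) • q a) +
          ∑ i ∈ t, β (p i) (q i))
    have h4 : ‖(1 / 2 : ℂ)‖ = 1 / 2 := by norm_num
    rw [h4]
    linarith

end Avg

variable {Ω : Type} [TopologicalSpace Ω] [CompactSpace Ω] [T2Space Ω]

lemma norm_le_of {O : Set Ω} (f : C0 O) {C : ℝ} (hC : 0 ≤ C) (h : ∀ w, ‖f.1 w‖ ≤ C) :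
    ‖f‖ ≤ C :=
  (ContinuousMap.norm_le _ hC).2 h

lemma c0_ext {O : Set Ω} {f g : C0 O} (h : ∀ w, f.1 w = g.1 w) : f = g :=
  Subtype.ext (ContinuousMap.ext h)

lemma coe_le {O : Set Ω} (f : C0 O) (w : Ω) : ‖f.1 w‖ ≤ ‖f‖ := f.1.norm_coe_le_norm w

lemma ind_mem {C : Set Ω} (h : IsClopen C) {w : Ω} (hw : w ∈ C) : ind C w = 1 := by
  rw [ind_apply h, Set.indicator_of_mem hw]
  rfl

lemma ind_not_mem {C : Set Ω} (h : IsClopen C) {w : Ω} (hw : w ∉ C) : ind C w = 0 := by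
  rw [ind_apply h, Set.indicator_of_notMem hw]

lemma sum_app {O : Set Ω} {ι : Type} (t : Finset ι) (g : ι → C0 O) (w : Ω) :
    (∑ i ∈ t, g i).1 w = ∑ i ∈ t, (g i).1 w := by
  rw [Submodule.coe_sum, ContinuousMap.sum_apply]

section Fam

variable {ι : Type} {V : ι → Set Ω} (hV : ∀ i, IsClopen (V i))
  (hd : Pairwise fun i j => Disjoint (V i) (V j))

include hV in
lemma cover (f : C(Ω, ℂ)) (hf : ∀ w ∉ ⋃ i, V i, f w = 0) {ε : ℝ} (hε : 0 < ε) :
    ∃ s : Finset ι, ∀ w, (∀ i ∈ s, w ∉ V i) → ‖f w‖ < ε := by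
  have hK : IsCompact {w | ε ≤ ‖f w‖} :=
    (isClosed_le continuous_const (by fun_prop)).isCompact
  obtain ⟨s, hs⟩ := hK.elim_finite_subcover V (fun i => (hV i).isOpen) (by
    intro w hw
    by_contra h
    have h1 : f w = 0 := hf w h
    have h2 : ε ≤ ‖f w‖ := hw
    rw [h1, norm_zero] at h2
    linarith)
  refine ⟨s, fun w hw => ?_⟩
  by_contra h
  have h1 : w ∈ {w | ε ≤ ‖f w‖} := not_lt.1 h
  have h2 := hs h1
  simp only [Set.mem_iUnion] at h2
  obtain ⟨i, hi, hwi⟩ := h2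
  exact hw i hi hwi

include hd in
lemma sup_disj {O : Set Ω} (t : Finset ι) (g : ι → C0 O) {C : ℝ} (hC : 0 ≤ C)
    (hg : ∀ i ∈ t, ∀ w, ‖(g i).1 w‖ ≤ C) (hg0 : ∀ i, ∀ w ∉ V i, (g i).1 w = 0) (ε : ι → ℂ)
    (hε : ∀ i, ε i = 1 ∨ ε i = -1) : ‖∑ i ∈ t, ε i • g i‖ ≤ C := by
  apply norm_le_of _ hC
  intro w
  rw [sum_app]
  by_cases h : ∃ i ∈ t, w ∈ V i
  · obtain ⟨i, hi, hwi⟩ := h
    rw [Finset.sum_eq_single i]
    · have h1 : ‖(ε i • g i).1 w‖ = ‖(g i).1 w‖ := by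
        change ‖ε i * (g i).1 w‖ = _
        rw [norm_mul]
        rcases hε i with h | h
        · rw [h, norm_one, one_mul]
        · rw [h, norm_neg, norm_one, one_mul]
      rw [h1]
      exact hg i hi w
    · intro j hj hji
      change ε j * (g j).1 w = 0
      rw [hg0 j w (fun h => Set.disjoint_left.1 (hd hji) h hwi), mul_zero]
    · intro h
      exact absurd hi h
  · rw [Finset.sum_eq_zero, norm_zero]
    · exact hC
    · intro j hj
      change ε j * (g j).1 w = 0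
      rw [hg0 j w (fun hw => h ⟨j, hj, hw⟩), mul_zero]

include hd in
lemma norm_sum_tens {O O' : Set Ω} (t : Finset ι) (e : ι → C0 O) (g : ι → C0 O') {C : ℝ}
    (hC : 0 ≤ C) (he : ∀ i ∈ t, ∀ w, ‖(e i).1 w‖ ≤ 1) (he0 : ∀ i, ∀ w ∉ V i, (e i).1 w = 0)
    (hg : ∀ i ∈ t, ∀ w, ‖(g i).1 w‖ ≤ C) (hg0 : ∀ i, ∀ w ∉ V i, (g i).1 w = 0) :
    ‖∑ i ∈ t, (tens (e i) (g i) : Tens (C0 O) (C0 O'))‖ ≤ C := by
  have h := avg (tens : C0 O →L[ℂ] C0 O' →L[ℂ] Tens (C0 O) (C0 O')) t e g C 0 0 (fun ε hε => by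
    rw [zero_add, zero_add]
    refine (norm_tens_le _ _).trans ?_
    have h1 := sup_disj hd t e zero_le_one he he0 ε hε
    have h2 := sup_disj hd t g hC hg hg0 ε hε
    calc _ ≤ 1 * C := mul_le_mul h1 h2 (norm_nonneg _) zero_le_one
      _ = C := one_mul C)
  simpa using h

include hV hd in
lemma hasSum_ind {O : Set Ω} (f : C0 O) (hf : ∀ w ∉ ⋃ i, V i, f.1 w = 0) :
    HasSum (fun i => mulC O (ind (V i)) f) f := by
  unfold HasSum
  rw [SummationFilter.unconditional_filter, Metric.tendsto_nhds]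
  intro ε hε
  obtain ⟨s, hs⟩ := cover hV f.1 hf (half_pos hε)
  filter_upwards [eventually_ge_atTop s] with t ht
  rw [dist_eq_norm]
  refine lt_of_le_of_lt (norm_le_of _ (half_pos hε).le ?_) (half_lt_self hε)
  intro w
  have e1 : (∑ i ∈ t, mulC O (ind (V i)) f - f).1 w =
      ∑ i ∈ t, ind (V i) w * f.1 w - f.1 w := by
    change (∑ i ∈ t, mulC O (ind (V i)) f).1 w - f.1 w = _
    rw [sum_app]
    rfl
  rw [e1]
  by_cases h : ∃ i ∈ t, w ∈ V i
  · obtain ⟨i, hi, hwi⟩ := h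
    rw [Finset.sum_eq_single i, ind_mem (hV i) hwi, one_mul, sub_self, norm_zero]
    · exact (half_pos hε).le
    · intro j hj hji
      rw [ind_not_mem (hV j) (fun h => Set.disjoint_left.1 (hd hji) h hwi), zero_mul]
    · intro h
      exact absurd hi h
  · rw [Finset.sum_eq_zero, zero_sub, norm_neg]
    · exact (hs w (fun i hi hw => h ⟨i, ht hi, hw⟩)).le
    · intro j hj
      rw [ind_not_mem (hV j) (fun hw => h ⟨j, hj, hw⟩), zero_mul]

end Fam

/-! ### Composition with `vv` -/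

section VV

variable (B : PBlk Ω)

lemma mem_U {i : B.I} {w : Ω} (h : w ∈ B.V i) : w ∈ B.U := Set.mem_iUnion.2 ⟨i, h⟩

lemma pt_not_mem (i : B.I) : B.pt i ∉ B.U' := by
  intro h
  obtain ⟨j, hj, hne⟩ := Set.mem_iUnion.1 h
  by_cases hij : i = j
  · subst hij
    exact hne rfl
  · exact Set.disjoint_left.1 (B.disj hij) (B.mem i) hj

lemma mem_U' {w : Ω} (hU : w ∈ B.U) (hw : w ∉ B.U') : ∃ i, w = B.pt i := by
  obtain ⟨i, hi⟩ := Set.mem_iUnion.1 hU
  refine ⟨i, ?_⟩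
  by_contra hne
  exact hw (Set.mem_iUnion.2 ⟨i, hi, hne⟩)

lemma vv_zero' {f : C(Ω, ℂ)} (hf : ∀ w ∉ B.U', f w = 0) (w : Ω) : f (B.vv w) = 0 := by
  by_cases h : w ∈ B.U
  · obtain ⟨i, hi⟩ := Set.mem_iUnion.1 h
    rw [B.vv_of_mem hi]
    exact hf _ (pt_not_mem B i)
  · rw [B.vv_of_not_mem h]
    exact hf _ fun h' => h (B.U'_sub h')

lemma continuous_vv (f : C(Ω, ℂ)) (hf : ∀ w ∉ B.U, f w = 0) : Continuous fun w => f (B.vv w) := by
  rw [continuous_iff_continuousAt]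
  intro w₀
  by_cases h : ∃ i, w₀ ∈ B.V i
  · obtain ⟨i, hi⟩ := h
    have h1 : (fun w => f (B.vv w)) =ᶠ[𝓝 w₀] fun w => f (B.pt i) := by
      filter_upwards [(B.clopen i).isOpen.mem_nhds hi] with w hw
      rw [B.vv_of_mem hw]
    exact ContinuousAt.congr continuousAt_const h1.symm
  · have h0 : w₀ ∉ B.U := fun h' => h (Set.mem_iUnion.1 h')
    have h1 : f (B.vv w₀) = 0 := by rw [B.vv_of_not_mem h0, hf _ h0]
    rw [ContinuousAt, h1, Metric.tendsto_nhds]
    intro ε hε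
    obtain ⟨s, hs⟩ := cover B.clopen f hf hε
    have hopen : IsOpen (⋂ i ∈ s, (B.V i)ᶜ) :=
      isOpen_biInter_finset fun i _ => (B.clopen i).isClosed.isOpen_compl
    have hmem : w₀ ∈ ⋂ i ∈ s, (B.V i)ᶜ := by
      simp only [Set.mem_iInter]
      intro i _ hi
      exact h ⟨i, hi⟩
    filter_upwards [hopen.mem_nhds hmem] with w hw
    rw [dist_zero_right]
    simp only [Set.mem_iInter] at hw
    apply hs
    intro i hi hwi
    by_cases hwU : w ∈ B.U
    · obtain ⟨j, hj⟩ := Set.mem_iUnion.1 hwU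
      rw [B.vv_of_mem hj] at hwi
      by_cases hij : i = j
      · subst hij
        exact hw i hi hj
      · exact Set.disjoint_left.1 (B.disj hij) hwi (B.mem j)
    · rw [B.vv_of_not_mem hwU] at hwi
      exact hw i hi hwi

/-- `f ↦ f ∘ vv` -/
def cv : C0 B.U →L[ℂ] C0 B.U :=
  LinearMap.mkContinuous
    { toFun := fun f => ⟨⟨fun w => f.1 (B.vv w), continuous_vv B f.1 f.2⟩, fun w hw => by
        change f.1 (B.vv w) = 0
        rw [B.vv_of_not_mem hw]
        exact f.2 w hw⟩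
      map_add' := fun _ _ => rfl
      map_smul' := fun _ _ => rfl } 1 (fun f => by
    rw [one_mul]
    exact (ContinuousMap.norm_le _ (norm_nonneg _)).2 fun w => f.1.norm_coe_le_norm (B.vv w))

@[simp] lemma cv_apply (f : C0 B.U) (w : Ω) : (cv B f).1 w = f.1 (B.vv w) := rfl

/-- `f ↦ f - f ∘ vv` -/
def kap : C0 B.U →L[ℂ] C0 B.U' :=
  LinearMap.mkContinuous
    { toFun := fun f => ⟨(f - cv B f).1, fun w hw => by
        change f.1 w - f.1 (B.vv w) = 0
        by_cases hU : w ∈ B.U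
        · obtain ⟨i, rfl⟩ := mem_U' B hU hw
          rw [B.vv_of_mem (B.mem i), sub_self]
        · rw [B.vv_of_not_mem hU, sub_self]⟩
      map_add' := fun f g => by
        apply c0_ext
        intro w
        change (f.1 w + g.1 w) - (f.1 (B.vv w) + g.1 (B.vv w)) =
          (f.1 w - f.1 (B.vv w)) + (g.1 w - g.1 (B.vv w))
        ring
      map_smul' := fun c f => by
        apply c0_ext
        intro w
        change c * f.1 w - c * f.1 (B.vv w) = c * (f.1 w - f.1 (B.vv w))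
        ring } 2 (fun f => by
    have h1 : ‖f - cv B f‖ ≤ ‖f‖ + ‖cv B f‖ := norm_sub_le _ _
    have h2 : ‖cv B f‖ ≤ ‖f‖ := norm_le_of _ (norm_nonneg _) fun w => coe_le f (B.vv w)
    change ‖f - cv B f‖ ≤ 2 * ‖f‖
    linarith)

@[simp] lemma kap_apply (f : C0 B.U) (w : Ω) : (kap B f).1 w = f.1 w - f.1 (B.vv w) := rfl

/-- `f ↦ f ∘ vv` with values in the functions constant on every `V i` -/
def qv : C0 B.U →L[ℂ] B.XS :=
  (cv B).codRestrict B.XS (fun f w => by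
    change f.1 (B.vv w) = f.1 (B.vv (B.vv w))
    rw [B.vv_vv])

lemma qv_apply (f : C0 B.U) (w : Ω) : (qv B f).1.1 w = f.1 (B.vv w) := rfl

lemma xs_ext {f g : B.XS} (h : ∀ w, f.1.1 w = g.1.1 w) : f = g :=
  Subtype.ext (c0_ext h)

end VV

theorem seq2 : S_SEQ2 := by
  intro Ω _ _ _ B
  refine ⟨(inc B.U'_sub : C0 B.U' →L[ℂ] C0 B.U), (qv B : C0 B.U →L[ℂ] B.XS),
    (kap B : C0 B.U →L[ℂ] C0 B.U'), (B.XS.subtypeL : B.XS →L[ℂ] C0 B.U), ⟨?_, ?_⟩, ⟨?_, ?_⟩,
    ?_, ?_, ?_, ?_⟩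
  · intro a x
    exact c0_ext fun w => rfl
  · intro a x
    exact c0_ext fun w => rfl
  · intro a x
    refine xs_ext B fun w => ?_
    change a (B.vv (B.vv w)) * x.1 (B.vv w) = a (B.vv w) * x.1 (B.vv w)
    rw [B.vv_vv]
  · intro a x
    exact xs_ext B fun w => rfl
  · intro x
    refine c0_ext fun w => ?_
    change x.1 w - x.1 (B.vv w) = x.1 w
    rw [vv_zero' B x.2, sub_zero]
  · intro x
    exact xs_ext B fun w => (x.2 w).symm
  · intro x
    refine c0_ext fun w => ?_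
    change (x.1 w - x.1 (B.vv w)) + x.1 (B.vv w) = x.1 w
    ring
  · intro x
    exact xs_ext B fun w => vv_zero' B x.2 w

theorem seq3 : S_SEQ3 := by
  intro Ω _ _ _ B
  refine ⟨(inc B.U'_sub : C0 B.U' →L[ℂ] C0 B.U), (qv B : C0 B.U →L[ℂ] B.XS),
    (kap B : C0 B.U →L[ℂ] C0 B.U'), (B.XS.subtypeL : B.XS →L[ℂ] C0 B.U), ⟨?_, ?_⟩, ⟨?_, ?_⟩,
    ?_, ?_, ?_, ?_⟩
  · intro a x
    exact c0_ext fun w => rfl
  · intro a x
    exact c0_ext fun w => rfl
  · intro a x
    exact xs_ext B fun w => rfl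
  · intro a x
    exact xs_ext B fun w => rfl
  · intro x
    refine c0_ext fun w => ?_
    change x.1 w - x.1 (B.vv w) = x.1 w
    rw [vv_zero' B x.2, sub_zero]
  · intro x
    exact xs_ext B fun w => (x.2 w).symm
  · intro x
    refine c0_ext fun w => ?_
    change (x.1 w - x.1 (B.vv w)) + x.1 (B.vv w) = x.1 w
    ring
  · intro x
    exact xs_ext B fun w => vv_zero' B x.2 w

end

end Pool.Agent.W363.DT
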