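import Mathlib
import Pool.Agent.W363.DT.Seq

set_option autoImplicit false
set_option maxSynthPendingDepth 3
set_option linter.unusedSectionVars false
set_option linter.unusedVariables false

/-! The first exact sequence. -/

namespace Pool.Agent.W363.DT

open Pool.Agent.Helper832.GD Pool.Agent.Helper832.GD.Bim ContinuousLinearMap Topology Filter
open Pool.Agent.W667.DT

noncomputable section

variable {Ω : Type} [TopologicalSpace Ω] [CompactSpace Ω] [T2Space Ω]

/-- operators which agree on the generators agree on the block diagonal part -/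
lemma psub_eq {S : Type} (B B' : Blk Ω S) {Z : Type} [NormedAddCommGroup Z] [NormedSpace ℂ Z]
    (f g : Tens (C0 B.U) (C0 B'.U) →L[ℂ] Z) (h : ∀ t ∈ PGen B B', f t = g t) :
    ∀ t ∈ PSub B B', f t = g t := by
  have h1 : PSub B B' ≤ LinearMap.ker (f - g).toLinearMap := by
    refine Submodule.topologicalClosure_minimal _ ?_ (ContinuousLinearMap.isClosed_ker (f - g))
    rw [Submodule.span_le]
    intro t ht
    change (f - g) t = 0
    rw [sub_apply, h t ht, sub_self]
  intro t ht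
  have h2 : (f - g) t = 0 := h1 ht
  rw [sub_apply, sub_eq_zero] at h2
  exact h2

/-- operators which map the generators into a closed subspace map the block diagonal part into it -/
lemma psub_map {S : Type} (B B' : Blk Ω S) {Z : Type} [NormedAddCommGroup Z] [NormedSpace ℂ Z]
    (f : Tens (C0 B.U) (C0 B'.U) →L[ℂ] Z) (N : Submodule ℂ Z) (hN : IsClosed (N : Set Z))
    (h : ∀ t ∈ PGen B B', f t ∈ N) : ∀ t ∈ PSub B B', f t ∈ N := by
  have h1 : PSub B B' ≤ N.comap f.toLinearMap := by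
    refine Submodule.topologicalClosure_minimal _ ?_ (hN.preimage f.continuous)
    rw [Submodule.span_le]
    intro t ht
    exact h t ht
  exact fun t ht => h1 ht

lemma pgen_mem {S : Type} {B B' : Blk Ω S} {t : Tens (C0 B.U) (C0 B'.U)} (h : t ∈ PGen B B') :
    t ∈ PSub B B' := Submodule.le_topologicalClosure _ (Submodule.subset_span h)

section Sec

variable (B : PBlk Ω) (O : Set Ω) (hO : O ⊆ B.U)

/-- the indicator function of `V i` -/
def ee (i : B.I) : C0 B.U :=
  ⟨ind (B.V i), fun w hw => ind_not_mem (B.clopen i) fun h => hw (mem_U B h)⟩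

lemma ee_mem {i : B.I} {w : Ω} (h : w ∈ B.V i) : (ee B i).1 w = 1 := ind_mem (B.clopen i) h

lemma ee_not_mem {i : B.I} {w : Ω} (h : w ∉ B.V i) : (ee B i).1 w = 0 :=
  ind_not_mem (B.clopen i) h

lemma ee_le (i : B.I) (w : Ω) : ‖(ee B i).1 w‖ ≤ 1 := by
  by_cases h : w ∈ B.V i
  · rw [ee_mem B h, norm_one]
  · rw [ee_not_mem B h, norm_zero]
    exact zero_le_one

/-- the terms of the section -/
def tt (i : B.I) : C0 O →L[ℂ] Tens (C0 B.U) (C0 O) :=
  (tens (ee B i)).comp (mulC O (ind (B.V i)))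

lemma tt_apply (i : B.I) (n : C0 O) :
    tt B O i n = tens (ee B i) (mulC O (ind (B.V i)) n) := rfl

include hO in
lemma tt_sum_le (n : C0 O) (t : Finset B.I) {C : ℝ} (hC : 0 ≤ C)
    (h : ∀ i ∈ t, ∀ w ∈ B.V i, ‖n.1 w‖ ≤ C) : ‖∑ i ∈ t, tt B O i n‖ ≤ C := by
  apply norm_sum_tens (V := B.V) B.disj t (fun i => ee B i)
    (fun i => mulC O (ind (B.V i)) n) hC (fun i _ w => ee_le B i w)
    (fun i w hw => ee_not_mem B hw)
  · intro i hi w
    rw [mulC_apply]
    by_cases hw : w ∈ B.V i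
    · rw [ind_mem (B.clopen i) hw, one_mul]
      exact h i hi w hw
    · rw [ind_not_mem (B.clopen i) hw, zero_mul, norm_zero]
      exact hC
  · intro i w hw
    rw [mulC_apply, ind_not_mem (B.clopen i) hw, zero_mul]

include hO in
lemma tt_summable (n : C0 O) : Summable (fun i => tt B O i n) := by
  rw [summable_iff_vanishing_norm]
  intro ε hε
  obtain ⟨s, hs⟩ := cover B.clopen n.1 (fun w hw => n.2 w fun h => hw (hO h)) (half_pos hε)
  refine ⟨s, fun t ht => ?_⟩
  refine lt_of_le_of_lt (tt_sum_le B O hO n t (half_pos hε).le ?_) (half_lt_self hε)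
  intro i hi w hw
  refine (hs w ?_).le
  intro j hj hwj
  by_cases hij : i = j
  · subst hij
    exact Finset.disjoint_left.1 ht hi hj
  · exact Set.disjoint_left.1 (B.disj hij) hw hwj

/-- the section -/
def ss : C0 O →L[ℂ] Tens (C0 B.U) (C0 O) :=
  LinearMap.mkContinuous
    { toFun := fun n => ∑' i, tt B O i n
      map_add' := fun m n => by
        rw [← (tt_summable B O hO m).tsum_add (tt_summable B O hO n)]
        exact tsum_congr fun i => map_add _ _ _
      map_smul' := fun c n => by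
        rw [RingHom.id_apply, ← (tt_summable B O hO n).tsum_const_smul c]
        exact tsum_congr fun i => map_smul _ _ _ } 1 (fun n => by
    rw [one_mul]
    have h := (tt_summable B O hO n).hasSum
    refine le_of_tendsto h.norm (Eventually.of_forall fun t => ?_)
    exact tt_sum_le B O hO n t (norm_nonneg _) fun i _ w _ => coe_le n w)

lemma ss_hasSum (n : C0 O) : HasSum (fun i => tt B O i n) (ss B O hO n) :=
  (tt_summable B O hO n).hasSum

/-- the value of the section at a function supported in `V i` -/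
lemma ss_single (n : C0 O) (i : B.I) (h : ∀ w ∉ B.V i, n.1 w = 0) :
    ss B O hO n = tens (ee B i) n := by
  have h1 : tt B O i n = tens (ee B i) n := by
    rw [tt_apply]
    congr 1
    refine c0_ext fun w => ?_
    rw [mulC_apply]
    by_cases hw : w ∈ B.V i
    · rw [ind_mem (B.clopen i) hw, one_mul]
    · rw [h w hw, mul_zero]
  rw [← h1]
  refine (ss_hasSum B O hO n).unique (hasSum_single i ?_)
  intro j hj
  rw [tt_apply]
  have h2 : mulC O (ind (B.V j)) n = 0 := by
    refine c0_ext fun w => ?_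
    rw [mulC_apply]
    by_cases hw : w ∈ B.V j
    · rw [h w fun hwi => Set.disjoint_left.1 (B.disj hj) hw hwi, mul_zero]
      rfl
    · rw [ind_not_mem (B.clopen j) hw, zero_mul]
      rfl
  rw [h2, map_zero]

end Sec

section Main

variable (B : PBlk Ω) (B₁ B' : Blk Ω B.I) (h1 : ∀ j, B₁.V j ⊆ B.V (B₁.l j)) (hU : B₁.U = B.U')
  (h2 : ∀ j, B'.V j ⊆ B.V (B'.l j)) (h : B'.U ⊆ B.U)

include h2 in
/-- the section takes values in the block diagonal part -/
lemma ss_mem (n : C0 B'.U) : ss B B'.U h n ∈ PSub B.toBlk B' := by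
  refine (isClosed_PSub B.toBlk B').mem_of_tendsto (ss_hasSum B B'.U h n)
    (Eventually.of_forall fun t => ?_)
  apply Submodule.sum_mem
  intro i _
  rw [tt_apply]
  have hs : HasSum (fun k => (tens (ee B i) : C0 B'.U →L[ℂ] Tens (C0 B.U) (C0 B'.U))
      (mulC B'.U (ind (B'.V k)) (mulC B'.U (ind (B.V i)) n)))
      ((tens (ee B i) : C0 B'.U →L[ℂ] Tens (C0 B.U) (C0 B'.U)) (mulC B'.U (ind (B.V i)) n)) :=
    (hasSum_ind B'.clopen B'.disj (mulC B'.U (ind (B.V i)) n)
      (fun w hw => (mulC B'.U (ind (B.V i)) n).2 w hw)).mapL _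
  refine (isClosed_PSub B.toBlk B').mem_of_tendsto hs (Eventually.of_forall fun t' => ?_)
  apply Submodule.sum_mem
  intro k _
  by_cases hk : B'.l k = i
  · apply pgen_mem
    refine ⟨i, k, ee B i, _, hk.symm, fun w hw => ee_not_mem B hw, fun w hw => ?_, rfl⟩
    rw [mulC_apply, ind_not_mem (B'.clopen k) hw, zero_mul]
  · have h0 : mulC B'.U (ind (B'.V k)) (mulC B'.U (ind (B.V i)) n) = 0 := by
      refine c0_ext fun w => ?_
      rw [mulC_apply, mulC_apply]
      by_cases hw : w ∈ B'.V k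
      · rw [ind_not_mem (B.clopen i) (fun hwi => Set.disjoint_left.1 (B.disj hk) (h2 k hw) hwi),
          zero_mul, mul_zero]
        rfl
      · rw [ind_not_mem (B'.clopen k) hw, zero_mul]
        rfl
    rw [h0, map_zero]
    exact Submodule.zero_mem _

/-- `f ↦ f - f ∘ vv` with values in `C0 B₁.U` -/
def kap1 : C0 B.U →L[ℂ] C0 B₁.U := (inc (le_of_eq hU.symm)).comp (kap B)

lemma kap1_apply (f : C0 B.U) (w : Ω) : (kap1 B B₁ hU f).1 w = f.1 w - f.1 (B.vv w) := rfl

/-- inclusion -/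
def inc1 : C0 B₁.U →L[ℂ] C0 B.U := inc (hU.le.trans B.U'_sub)

lemma inc1_apply (f : C0 B₁.U) (w : Ω) : (inc1 B B₁ hU f).1 w = f.1 w := rfl

/-- the operator `i` -/
def iT : Tens (C0 B₁.U) (C0 B'.U) →L[ℂ] Tens (C0 B.toBlk.U) (C0 B'.U) :=
  tmapL (inc1 B B₁ hU) (ContinuousLinearMap.id ℂ (C0 B'.U))

lemma iT_tens (m : C0 B₁.U) (n : C0 B'.U) :
    iT B B₁ B' hU (tens m n) = (tens (inc1 B B₁ hU m) n : Tens (C0 B.U) (C0 B'.U)) :=
  tmapL_tens _ _ _ _

/-- the operator `r` -/
def rT : Tens (C0 B.toBlk.U) (C0 B'.U) →L[ℂ] Tens (C0 B₁.U) (C0 B'.U) :=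
  tmapL (kap1 B B₁ hU) (ContinuousLinearMap.id ℂ (C0 B'.U))

lemma rT_tens (m : C0 B.U) (n : C0 B'.U) :
    rT B B₁ B' hU (tens m n : Tens (C0 B.U) (C0 B'.U)) = tens (kap1 B B₁ hU m) n :=
  tmapL_tens _ _ _ _

/-- the operator `q` -/
def qT : Tens (C0 B.toBlk.U) (C0 B'.U) →L[ℂ] C0 B'.U :=
  lift ((B.lam B'.U h).comp (C0 B.U).subtypeL)

lemma qT_tens (m : C0 B.U) (n : C0 B'.U) :
    qT B B' h (tens m n : Tens (C0 B.U) (C0 B'.U)) = B.lam B'.U h m.1 n :=
  lift_tens _ _ _

/-- the operator `s` -/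
def sT : C0 B'.U →L[ℂ] Tens (C0 B.toBlk.U) (C0 B'.U) := ss B B'.U h

include h1 in
lemma iT_mem : ∀ t ∈ PSub B₁ B', iT B B₁ B' hU t ∈ PSub B.toBlk B' := by
  apply psub_map B₁ B' _ _ (isClosed_PSub _ _)
  rintro _ ⟨i, j, m, n, h3, h4, h5, rfl⟩
  rw [iT_tens]
  apply pgen_mem
  exact ⟨B₁.l i, j, inc1 B B₁ hU m, n, h3, fun w hw => h4 w fun hwi => hw (h1 i hwi), h5, rfl⟩

include h1 in
lemma rT_mem : ∀ t ∈ PSub B.toBlk B', rT B B₁ B' hU t ∈ PSub B₁ B' := by
  apply psub_map B.toBlk B' _ _ (isClosed_PSub _ _)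
  rintro _ ⟨i, j, m, n, h3, h4, h5, rfl⟩
  have hrt : rT B B₁ B' hU (tens m n) = tens (kap1 B B₁ hU m) n := rT_tens B B₁ B' hU m n
  rw [hrt]
  have hs : HasSum (fun k => (tens.flip n : C0 B₁.U →L[ℂ] Tens (C0 B₁.U) (C0 B'.U))
      (mulC B₁.U (ind (B₁.V k)) (kap1 B B₁ hU m)))
      ((tens.flip n : C0 B₁.U →L[ℂ] Tens (C0 B₁.U) (C0 B'.U)) (kap1 B B₁ hU m)) :=
    (hasSum_ind B₁.clopen B₁.disj (kap1 B B₁ hU m)
      (fun w hw => (kap1 B B₁ hU m).2 w hw)).mapL _
  refine (isClosed_PSub B₁ B').mem_of_tendsto hs (Eventually.of_forall fun t' => ?_)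
  apply Submodule.sum_mem
  intro k _
  by_cases hk : B₁.l k = i
  · apply pgen_mem
    refine ⟨k, j, _, n, hk.trans h3, fun w hw => ?_, h5, rfl⟩
    rw [mulC_apply, ind_not_mem (B₁.clopen k) hw, zero_mul]
  · have h0 : mulC B₁.U (ind (B₁.V k)) (kap1 B B₁ hU m) = 0 := by
      refine c0_ext fun w => ?_
      rw [mulC_apply, kap1_apply]
      by_cases hw : w ∈ B₁.V k
      · have hw' := h1 k hw
        have e1 : m.1 w = 0 := h4 w fun hwi => Set.disjoint_left.1 (B.disj hk) hw' hwi
        have e2 : m.1 (B.vv w) = 0 := by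
          rw [B.vv_of_mem hw']
          exact h4 _ fun hwi => Set.disjoint_left.1 (B.disj hk) (B.mem _) hwi
        rw [e1, e2, sub_self, mul_zero]
        rfl
      · rw [ind_not_mem (B₁.clopen k) hw, zero_mul]
        rfl
    rw [h0, map_zero]
    exact Submodule.zero_mem _

lemma comb (m : C0 B.U) (n : C0 B'.U) (i : B.I) (h4 : ∀ w ∉ B.V i, m.1 w = 0)
    (hn : ∀ w ∉ B.V i, n.1 w = 0) :
    iT B B₁ B' hU (rT B B₁ B' hU (tens m n : Tens (C0 B.U) (C0 B'.U))) +
      sT B B' h (qT B B' h (tens m n : Tens (C0 B.U) (C0 B'.U))) =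
    (tens m n : Tens (C0 B.U) (C0 B'.U)) := by
  have e1 : iT B B₁ B' hU (rT B B₁ B' hU (tens m n : Tens (C0 B.U) (C0 B'.U))) =
      (tens (m - cv B m) n : Tens (C0 B.U) (C0 B'.U)) := by
    refine (congrArg (iT B B₁ B' hU) (rT_tens B B₁ B' hU m n)).trans ?_
    rw [iT_tens]
    rfl
  have e2 : sT B B' h (qT B B' h (tens m n : Tens (C0 B.U) (C0 B'.U))) =
      (tens (cv B m) n : Tens (C0 B.U) (C0 B'.U)) := by
    refine (congrArg (ss B B'.U h) (qT_tens B B' h m n)).trans ?_
    have e3 : B.lam B'.U h m.1 n = m.1 (B.pt i) • n := by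
      refine c0_ext fun w => ?_
      change m.1 (B.vv w) * n.1 w = m.1 (B.pt i) * n.1 w
      by_cases hw : w ∈ B.V i
      · rw [B.vv_of_mem hw]
      · rw [hn w hw, mul_zero, mul_zero]
    have e4 : cv B m = m.1 (B.pt i) • ee B i := by
      refine c0_ext fun w => ?_
      change m.1 (B.vv w) = m.1 (B.pt i) * (ee B i).1 w
      by_cases hw : w ∈ B.V i
      · rw [B.vv_of_mem hw, ee_mem B hw, mul_one]
      · rw [ee_not_mem B hw, mul_zero]
        by_cases hwU : w ∈ B.U
        · obtain ⟨k, hk⟩ := Set.mem_iUnion.1 hwU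
          rw [B.vv_of_mem hk]
          apply h4
          intro hk'
          by_cases hik : k = i
          · subst hik
            exact hw hk
          · exact Set.disjoint_left.1 (B.disj hik) (B.mem k) hk'
        · rw [B.vv_of_not_mem hwU]
          exact h4 w hw
    rw [e3, map_smul, ss_single B B'.U h n i hn, e4, map_smul, smul_apply]
  refine (congrArg₂ (fun a b : Tens (C0 B.U) (C0 B'.U) => a + b) e1 e2).trans ?_
  change (tens (m - cv B m) n : Tens (C0 B.U) (C0 B'.U)) + tens (cv B m) n = tens m n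
  rw [map_sub, sub_apply]
  exact sub_add_cancel _ _

end Main

theorem seq1 : S_SEQ1 := by
  intro Ω _ _ _ B B₁ B' h1 hU h2 h
  let i' : PSub B₁ B' →L[ℂ] PSub B.toBlk B' :=
    ((iT B B₁ B' hU).comp (PSub B₁ B').subtypeL).codRestrict (PSub B.toBlk B')
      (fun x => iT_mem B B₁ B' h1 hU x.1 x.2)
  let r' : PSub B.toBlk B' →L[ℂ] PSub B₁ B' :=
    ((rT B B₁ B' hU).comp (PSub B.toBlk B').subtypeL).codRestrict (PSub B₁ B')
      (fun x => rT_mem B B₁ B' h1 hU x.1 x.2)
  let q' : PSub B.toBlk B' →L[ℂ] C0 B'.U := (qT B B' h).comp (PSub B.toBlk B').subtypeL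
  let s' : C0 B'.U →L[ℂ] PSub B.toBlk B' :=
    (ss B B'.U h).codRestrict (PSub B.toBlk B') (fun n => ss_mem B B' h2 h n)
  refine ⟨i', q', r', s', ⟨?_, ?_⟩, ⟨?_, ?_⟩, ?_, ?_, ?_, ?_⟩
  · intro a x
    apply Subtype.ext
    change iT B B₁ B' hU (tLeft B₁.U B'.U a x.1) = tLeft B.toBlk.U B'.U a (iT B B₁ B' hU x.1)
    have e : (iT B B₁ B' hU).comp (tLeft B₁.U B'.U a) =
        (tLeft B.toBlk.U B'.U a).comp (iT B B₁ B' hU) := by
      apply tens_ext
      intro m n
      rw [comp_apply, comp_apply, tLeft_tens, iT_tens, iT_tens]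
      exact (tLeft_tens B.U B'.U a (inc1 B B₁ hU m) n).symm
    exact congrArg (fun T => T x.1) e
  · intro a x
    apply Subtype.ext
    change iT B B₁ B' hU (Pool.Agent.W667.DT.tRight B₁.U B'.U a x.1) = Pool.Agent.W667.DT.tRight B.toBlk.U B'.U a (iT B B₁ B' hU x.1)
    have e : (iT B B₁ B' hU).comp (Pool.Agent.W667.DT.tRight B₁.U B'.U a) =
        (Pool.Agent.W667.DT.tRight B.toBlk.U B'.U a).comp (iT B B₁ B' hU) := by
      apply tens_ext
      intro m n
      rw [comp_apply, comp_apply, Pool.Agent.W667.DT.tRight_tens, iT_tens, iT_tens]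
      exact (Pool.Agent.W667.DT.tRight_tens B.U B'.U a (inc1 B B₁ hU m) n).symm
    exact congrArg (fun T => T x.1) e
  · intro a x
    change qT B B' h (tLeft B.toBlk.U B'.U a x.1) = B.lam B'.U h a (qT B B' h x.1)
    have e : (qT B B' h).comp (tLeft B.toBlk.U B'.U a) = (B.lam B'.U h a).comp (qT B B' h) := by
      apply tens_ext
      intro m n
      rw [comp_apply, comp_apply, tLeft_tens]
      refine (qT_tens B B' h (mulC B.U a m) n).trans ?_
      refine Eq.trans ?_ (congrArg (B.lam B'.U h a) (qT_tens B B' h m n)).symm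
      refine c0_ext fun w => ?_
      change (a (B.vv w) * m.1 (B.vv w)) * n.1 w = a (B.vv w) * (m.1 (B.vv w) * n.1 w)
      ring
    exact congrArg (fun T => T x.1) e
  · intro a x
    change qT B B' h (Pool.Agent.W667.DT.tRight B.toBlk.U B'.U a x.1) = mulC B'.U a (qT B B' h x.1)
    have e : (qT B B' h).comp (Pool.Agent.W667.DT.tRight B.toBlk.U B'.U a) = (mulC B'.U a).comp (qT B B' h) := by
      apply tens_ext
      intro m n
      rw [comp_apply, comp_apply, Pool.Agent.W667.DT.tRight_tens]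
      refine (qT_tens B B' h m (mulC B'.U a n)).trans ?_
      refine Eq.trans ?_ (congrArg (mulC B'.U a) (qT_tens B B' h m n)).symm
      refine c0_ext fun w => ?_
      change m.1 (B.vv w) * (a w * n.1 w) = a w * (m.1 (B.vv w) * n.1 w)
      ring
    exact congrArg (fun T => T x.1) e
  · intro x
    apply Subtype.ext
    change rT B B₁ B' hU (iT B B₁ B' hU x.1) = x.1
    have e : (rT B B₁ B' hU).comp (iT B B₁ B' hU) = ContinuousLinearMap.id ℂ _ := by
      apply tens_ext
      intro m n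
      rw [comp_apply, iT_tens]
      refine (rT_tens B B₁ B' hU (inc1 B B₁ hU m) n).trans ?_
      rw [id_apply]
      congr 2
      refine c0_ext fun w => ?_
      rw [kap1_apply, inc1_apply, inc1_apply]
      rw [vv_zero' B (f := m.1) (fun w hw => m.2 w fun hw' => hw (hU ▸ hw')), sub_zero]
    exact congrArg (fun T => T x.1) e
  · intro n
    change qT B B' h (ss B B'.U h n) = n
    have hs := (ss_hasSum B B'.U h n).mapL (qT B B' h)
    refine hs.unique ?_
    have e : (fun i => qT B B' h (tt B B'.U i n)) = fun i => mulC B'.U (ind (B.V i)) n := by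
      funext i
      rw [tt_apply]
      refine (qT_tens B B' h (ee B i) (mulC B'.U (ind (B.V i)) n)).trans ?_
      refine c0_ext fun w => ?_
      change (ee B i).1 (B.vv w) * (ind (B.V i) w * n.1 w) = ind (B.V i) w * n.1 w
      by_cases hw : w ∈ B.V i
      · rw [B.vv_of_mem hw, ee_mem B (B.mem i), one_mul]
      · rw [ind_not_mem (B.clopen i) hw, zero_mul, mul_zero]
    rw [e]
    exact hasSum_ind B.clopen B.disj n (fun w hw => n.2 w fun hw' => hw (h hw'))
  · intro x
    apply Subtype.ext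
    change iT B B₁ B' hU (rT B B₁ B' hU x.1) + sT B B' h (qT B B' h x.1) = x.1
    have e := psub_eq B.toBlk B' ((iT B B₁ B' hU).comp (rT B B₁ B' hU) +
      (sT B B' h).comp (qT B B' h)) (ContinuousLinearMap.id ℂ _) (by
        rintro _ ⟨i, j, m, n, h3, h4, h5, rfl⟩
        rw [add_apply, comp_apply, comp_apply, id_apply]
        exact comb B B₁ B' hU h m n i h4 (fun w hw => h5 w fun hwj => hw (by
          have := h2 j hwj
          rw [← h3] at this
          exact this)))
    exact e x.1 x.2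
  · intro x
    change qT B B' h (iT B B₁ B' hU x.1) = 0
    have e : (qT B B' h).comp (iT B B₁ B' hU) = 0 := by
      apply tens_ext
      intro m n
      rw [comp_apply, iT_tens]
      refine (qT_tens B B' h (inc1 B B₁ hU m) n).trans ?_
      refine c0_ext fun w => ?_
      change m.1 (B.vv w) * n.1 w = 0
      rw [vv_zero' B (f := m.1) (fun w hw => m.2 w fun hw' => hw (hU ▸ hw')), zero_mul]
    exact congrArg (fun T => T x.1) e

end

end Pool.Agent.W363.DT
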